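import Pool.Agent.H.MP_6fb490_co.B

set_option autoImplicit false

namespace Pool.Agent.Results.MP_6fb490_co.Equation

open Pool.Agent.H.MP_6fb490_co

theorem result : (∃! Φ : PowerSeries (Polynomial (PowerSeries ℚ)), Sys Φ) ∧
    ∀ Φ : PowerSeries (Polynomial (PowerSeries ℚ)), Sys Φ → ∀ k n s : ℕ, k + 2 ≤ n → k + 2 ≤ s →
      (av n k : ℚ) = PowerSeries.coeff k ((PowerSeries.coeff s Φ).coeff s) := by
  refine ⟨⟨_, sys_sol, fun Φ h => uniq h sys_sol⟩, fun Φ h k n s hn hs => ?_⟩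
  rw [uniq h sys_sol, PowerSeries.coeff_mk, Q_coeff, F, PowerSeries.coeff_mk, av_f hn hs]

end Pool.Agent.Results.MP_6fb490_co.Equation
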